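import Pool.Agent.K1H32.CI.Fin3

/-! Limits of Cauchy-type integrals along a connected set approaching a boundary point: the three
equivalences of the problem, for all admissible data. In part (a) the quantity has to be taken without
the weight `1/ρ`; with the weight only one direction of (a) is true. -/

set_option autoImplicit false

open MeasureTheory Set Filter Topology Metric Asymptotics
open scoped ENNReal NNReal

namespace Pool.Agent.Results.MP_5e19db_an.CauchyLimits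

/-- The set `E` of the problem: the points at which both `A` and its complement have positive upper
density. -/
def essBoundary (A : Set ℂ) : Set ℂ :=
  {ζ | 0 < limsup (fun r : ℝ => volume (ball ζ r ∩ A) / ENNReal.ofReal (r ^ 2)) (𝓝[>] 0) ∧
    0 < limsup (fun r : ℝ => volume (ball ζ r ∩ Aᶜ) / ENNReal.ofReal (r ^ 2)) (𝓝[>] 0)}

/-- `∂̄ φ = (∂₁ φ + i ∂₂ φ) / 2` -/
noncomputable def dbar (φ : ℂ → ℂ) (ζ : ℂ) : ℂ :=
  (fderiv ℝ φ ζ 1 + Complex.I * fderiv ℝ φ ζ Complex.I) / 2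

/-- `(1 / (π i)) ∫_G ∂̄φ(ζ) / (ζ - z) dζ`, where `G` is the complement of `A` -/
noncomputable def cauchyC1 (A : Set ℂ) (φ : ℂ → ℂ) (z : ℂ) : ℂ :=
  (1 / (Real.pi * Complex.I)) * ∫ ζ in Aᶜ, dbar φ ζ / (ζ - z)

/-- `f ∈ C(∂A, Q)`: `f` is continuous on `∂A` and `f(ζ) - f(η) = o(Q(ζ))` as `ζ → η` in `∂A` -/
def MemC (A : Set ℂ) (Q : ℂ → ℝ) (η : ℂ) (f : ℂ → ℂ) : Prop :=
  ContinuousOn f (frontier A) ∧ (fun ζ => f ζ - f η) =o[𝓝[frontier A] η] Q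

/-- the norm of `C(∂A, Q)` -/
noncomputable def normQ (A : Set ℂ) (Q : ℂ → ℝ) (η : ℂ) (f : ℂ → ℂ) : ℝ≥0∞ :=
  (⨆ ζ ∈ frontier A, ENNReal.ofReal ‖f ζ‖) ⊔
    (⨆ ζ ∈ frontier A, ⨆ (_ : ζ ≠ η), ENNReal.ofReal (‖f ζ - f η‖ / Q ζ))

/-- the compactly supported `C¹` functions `φ` with `φ(z) = 0` which belong to `C(∂A, Q)` and have
distance at most `ε` from `f` there -/
def Near (A : Set ℂ) (Q : ℂ → ℝ) (η : ℂ) (f : ℂ → ℂ) (z : ℂ) (ε : ℝ) : Set (ℂ → ℂ) :=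
  {φ | ContDiff ℝ 1 φ ∧ HasCompactSupport φ ∧ φ z = 0 ∧ MemC A Q η φ ∧
    normQ A Q η (fun ζ => φ ζ - f ζ) ≤ ENNReal.ofReal ε}

/-- the filter generated by the sets `Near A Q η f z ε`, `ε > 0` -/
def approx (A : Set ℂ) (Q : ℂ → ℝ) (η : ℂ) (f : ℂ → ℂ) (z : ℂ) : Filter (ℂ → ℂ) :=
  ⨅ ε ∈ Ioi (0:ℝ), 𝓟 (Near A Q η f z ε)

/-- the Cauchy-type integral of `f ∈ C(∂A, Q)` at `z`: the limit of the integrals of the smooth
functions which approximate `f` -/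
noncomputable def cauchyK (A : Set ℂ) (Q : ℂ → ℝ) (η : ℂ) (f : ℂ → ℂ) (z : ℂ) : ℂ :=
  limUnder (approx A Q η f z) (fun φ => cauchyC1 A φ z)

/-- the open segment of length `r` (half-line, if `r = ⊤`) from `η` in direction `γ` -/
def ray (η : ℂ) (γ : ℝ) (r : ℝ≥0∞) : Set ℂ :=
  {ξ | ∃ ρ : ℝ, 0 < ρ ∧ ENNReal.ofReal ρ < r ∧ ξ = η + ρ * Complex.exp (γ * Complex.I)}

/-- `v^Q(η)` -/
noncomputable def vQ (A : Set ℂ) (Q : ℂ → ℝ) (η : ℂ) : ℝ≥0∞ :=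
  ∫⁻ γ in Ioc 0 (2 * Real.pi), ∑' ξ : ↥(essBoundary A ∩ ray η γ ⊤), ENNReal.ofReal (Q ξ)

/-- `V_r^Q(η)` -/
noncomputable def VQ (A : Set ℂ) (Q : ℂ → ℝ) (η : ℂ) (r : ℝ≥0∞) : ℝ≥0∞ :=
  ∫⁻ γ in Ioc 0 (2 * Real.pi), ∑' ξ : ↥(essBoundary A ∩ ray η γ r), ENNReal.ofReal (‖(ξ:ℂ) - η‖ * Q ξ)

/-- `U_r^Q(η)` as in the problem, with the weight `1/ρ` -/
noncomputable def UQ (A : Set ℂ) (Q : ℂ → ℝ) (η : ℂ) (r : ℝ≥0∞) : ℝ≥0∞ :=
  ∫⁻ ρ in {ρ : ℝ | 0 < ρ ∧ ENNReal.ofReal ρ < r},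
    ENNReal.ofReal ρ⁻¹ * ∑' ξ : ↥(essBoundary A ∩ sphere η ρ), ENNReal.ofReal (Q ξ)

/-- `u_r^Q(η)`: the same integral without the weight `1/ρ` -/
noncomputable def uQ (A : Set ℂ) (Q : ℂ → ℝ) (η : ℂ) (r : ℝ≥0∞) : ℝ≥0∞ :=
  ∫⁻ ρ in {ρ : ℝ | 0 < ρ ∧ ENNReal.ofReal ρ < r},
    ∑' ξ : ↥(essBoundary A ∩ sphere η ρ), ENNReal.ofReal (Q ξ)

/-- the unit directions of the half-lines of the contingent of `M` at `η` -/
def contingent (M : Set ℂ) (η : ℂ) : Set ℂ :=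
  {u | ‖u‖ = 1 ∧ ∃ z : ℕ → ℂ, (∀ n, z n ∈ M ∧ z n ≠ η) ∧ Tendsto z atTop (𝓝 η) ∧
    Tendsto (fun n => (z n - η) / (‖z n - η‖ : ℂ)) atTop (𝓝 u)}

/-- the standing hypotheses of the problem on `A`, `Q`, `η`, `S` -/
structure Admissible (A : Set ℂ) (Q : ℂ → ℝ) (η : ℂ) (S : Set ℂ) : Prop where
  borel : MeasurableSet A
  compact : IsCompact (frontier A)
  interior_nonempty : (interior A).Nonempty
  thick : ∀ z ∈ frontier A, ∀ r : ℝ, 0 < r → 0 < volume (ball z r ∩ A) ∧ 0 < volume (ball z r ∩ Aᶜ)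
  mem : η ∈ frontier A
  nonneg : ∀ ζ ∈ frontier A, 0 ≤ Q ζ
  pos : ∀ ζ ∈ frontier A, ζ ≠ η → 0 < Q ζ
  bounded : ∃ B : ℝ, ∀ ζ ∈ frontier A, Q ζ ≤ B
  lsc : LowerSemicontinuousOn Q (frontier A)
  finite : ∫⁻ ζ in essBoundary A, ENNReal.ofReal (Q ζ) ∂(Measure.hausdorffMeasure 1 : Measure ℂ) < ∞
  sub : S ⊆ interior A
  connected : IsConnected S
  closure_inter : closure S ∩ frontier A = {η}
  direction : ∃ u : ℂ, contingent S η = {u} ∧ u ∉ contingent (frontier A) η ∧ -u ∉ contingent (frontier A) η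

/-- `W f = Im K f` has a finite limit at `η` along `S`, for every real `f ∈ C(∂A, Q)` -/
def LimitsW (A : Set ℂ) (Q : ℂ → ℝ) (η : ℂ) (S : Set ℂ) : Prop :=
  ∀ f : ℂ → ℝ, MemC A Q η (fun ζ => (f ζ : ℂ)) →
    ∃ L : ℝ, Tendsto (fun z => (cauchyK A Q η (fun ζ => (f ζ : ℂ)) z).im) (𝓝[S] η) (𝓝 L)

/-- `P f = Re K f` has a finite limit at `η` along `S`, for every real `f ∈ C(∂A, Q)` -/
def LimitsP (A : Set ℂ) (Q : ℂ → ℝ) (η : ℂ) (S : Set ℂ) : Prop :=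
  ∀ f : ℂ → ℝ, MemC A Q η (fun ζ => (f ζ : ℂ)) →
    ∃ L : ℝ, Tendsto (fun z => (cauchyK A Q η (fun ζ => (f ζ : ℂ)) z).re) (𝓝[S] η) (𝓝 L)

/-- `K f` has a finite limit at `η` along `S`, for every `f ∈ C(∂A, Q)` -/
def LimitsK (A : Set ℂ) (Q : ℂ → ℝ) (η : ℂ) (S : Set ℂ) : Prop :=
  ∀ f : ℂ → ℂ, MemC A Q η f → ∃ L : ℂ, Tendsto (fun z => cauchyK A Q η f z) (𝓝[S] η) (𝓝 L)

lemma Admissible.old {A : Set ℂ} {Q : ℂ → ℝ} {η : ℂ} {S : Set ℂ} (h : Admissible A Q η S) :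
    Pool.Agent.K1H32.CI.Admissible A Q η S :=
  ⟨h.borel, h.compact, h.interior_nonempty, h.thick, h.mem, h.nonneg, h.pos, h.bounded, h.lsc,
    h.finite, h.sub, h.connected, h.closure_inter, h.direction⟩

/-- **Main theorem.** For all admissible `A`, `Q`, `η`, `S`: the Cauchy-type integral is well defined
on `C(∂A, Q)` (first two clauses), the corrected form of (a) holds, the condition of (a) as worded is
sufficient, (b) holds, (c) holds. The condition of (a) as worded is not necessary. -/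
theorem result :
    (∀ (A : Set ℂ) (Q : ℂ → ℝ) (η : ℂ) (S : Set ℂ), Admissible A Q η S →
      (∀ f : ℂ → ℂ, MemC A Q η f → ∀ z ∈ interior A, (approx A Q η f z).NeBot ∧
        Tendsto (fun φ => cauchyC1 A φ z) (approx A Q η f z) (𝓝 (cauchyK A Q η f z))) ∧
      (∀ f : ℂ → ℂ, MemC A Q η f → ∀ z ∈ interior A, ∀ φ : ℂ → ℂ, ContDiff ℝ 1 φ →
        HasCompactSupport φ → φ z = 0 → (∀ ζ ∈ frontier A, φ ζ = f ζ) →
        cauchyK A Q η f z = cauchyC1 A φ z) ∧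
      (LimitsW A Q η S ↔
        vQ A Q η + ⨆ r : {r : ℝ // 0 < r}, uQ A Q η (ENNReal.ofReal r) / ENNReal.ofReal r < ∞) ∧
      (vQ A Q η + ⨆ r : {r : ℝ // 0 < r}, UQ A Q η (ENNReal.ofReal r) / ENNReal.ofReal r < ∞ →
        LimitsW A Q η S) ∧
      (LimitsP A Q η S ↔
        UQ A Q η ⊤ + ⨆ r : {r : ℝ // 0 < r}, VQ A Q η (ENNReal.ofReal r) / ENNReal.ofReal r < ∞) ∧
      (LimitsK A Q η S ↔ UQ A Q η ⊤ + vQ A Q η < ∞)) ∧
    (∃ (A : Set ℂ) (Q : ℂ → ℝ) (η : ℂ) (S : Set ℂ), Admissible A Q η S ∧ LimitsW A Q η S ∧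
      ¬ (vQ A Q η + ⨆ r : {r : ℝ // 0 < r}, UQ A Q η (ENNReal.ofReal r) / ENNReal.ofReal r < ∞)) := by
  refine ⟨fun A Q η S h => ⟨fun f hf z hz => ?_, ?_, ?_, ?_, ?_, ?_⟩, ?_⟩
  · exact Pool.Agent.K1H32.CI.well_defined h.old hf hz
  · intro f hf z hz φ h1 h2 _ h4
    exact Pool.Agent.K1H32.CI.extends_boundary h.old hf h1 h2 h4 hz
  · exact Pool.Agent.K1H32.CI.part_a h.old
  · intro hs
    exact (Pool.Agent.K1H32.CI.part_a h.old).2 (Pool.Agent.K1H32.CI.literal_suff h.old hs)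
  · exact Pool.Agent.K1H32.CI.part_b h.old
  · exact Pool.Agent.K1H32.CI.part_c h.old
  · obtain ⟨h1, h2, h3⟩ := Pool.Agent.K1H32.CI.literal_a_fails
    exact ⟨_, _, _, _, ⟨h1.borel, h1.compact, h1.interior_nonempty, h1.thick, h1.mem, h1.nonneg, h1.pos,
      h1.bounded, h1.lsc, h1.finite, h1.sub, h1.connected, h1.closure_inter, h1.direction⟩, h2, h3⟩

end Pool.Agent.Results.MP_5e19db_an.CauchyLimits
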